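import Pool.Agent.Q28.HJ.GDefs
import Pool.Agent.Q28.HJ.Small

/-!
# Frobenius on the cohomology of complete varieties: definitions
-/

set_option autoImplicit false

open CategoryTheory MonoidalCategory

universe v u w

namespace Pool.Agent.Q173.FS

/-- A finite-dimensional vector space over `Ω` (in the intended use an algebraic closure of the field
of `ℓ`-adic numbers) with an endomorphism, the Frobenius. -/
structure Fr (Ω : Type) [Field Ω] where
  /-- the space -/
  V : Type
  [acg : AddCommGroup V]
  [mod : Module Ω V]
  [fin : Module.Finite Ω V]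
  /-- the Frobenius -/
  F : V →ₗ[Ω] V

attribute [instance] Fr.acg Fr.mod Fr.fin

namespace Fr

variable {Ω : Type} [Field Ω]

/-- The Frobenius is diagonalisable (`Ω` is algebraically closed). -/
def Semisimple (A : Fr Ω) : Prop := Module.End.IsSemisimple A.F

/-- All complex conjugates `z` of all eigenvalues satisfy `|z|² = q ^ m`; the eigenvalues are algebraic
numbers. -/
def Pure [CharZero Ω] (q m : ℕ) (A : Fr Ω) : Prop :=
  ∀ b : Ω, Module.End.HasEigenvalue A.F b → IsIntegral ℚ b ∧
    ∀ z : ℂ, Polynomial.aeval z (minpoly ℚ b) = 0 → ‖z‖ ^ 2 = (q : ℝ) ^ m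

/-- A linear map which respects Frobenius. -/
structure Hom (A B : Fr Ω) where
  /-- the map -/
  f : A.V →ₗ[Ω] B.V
  comm : ∀ x, f (A.F x) = B.F (f x)

/-- The map `A.V → B.V`. -/
def Hom.app {A B : Fr Ω} (h : A.Hom B) (x : A.V) : B.V := h.f x

/-- `G` is a subquotient of `B`: a quotient of a subspace `S` of `B`, with its Frobenius. -/
def Subquotient (G B : Fr Ω) : Prop :=
  ∃ (S : Fr Ω) (i : S.Hom B) (p : S.Hom G), Function.Injective i.app ∧ Function.Surjective p.app

/-- `0 → A → A' → G → 0` is an exact sequence (of spaces with Frobenius). -/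
def Exact (A A' G : Fr Ω) : Prop :=
  ∃ (i : A.Hom A') (p : A'.Hom G), Function.Injective i.app ∧ Function.Surjective p.app ∧
    ∀ x, p.app x = 0 ↔ ∃ y, i.app y = x

/-- `A` has a filtration of length `n`, stable under Frobenius, whose graded pieces `G_m`, `0 ≤ m < n`,
are subquotients of `B m`. -/
inductive Filtered (B : ℕ → Fr Ω) : ℕ → Fr Ω → Prop
  | zero {A : Fr Ω} (h : ∀ x : A.V, x = 0) : Filtered B 0 A
  | succ {m : ℕ} {A A' G : Fr Ω} (h : Filtered B m A) (e : A.Exact A' G)
      (g : G.Subquotient (B m)) : Filtered B (m + 1) A'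

end Fr

/-- The category `𝓜` of Chow motives over the finite field `k` with `q` elements, the hypersurfaces
over `k`, the cohomology of motives and of complete varieties over `k`. -/
structure FData (Ω : Type) [Field Ω] (𝓜 : Type u) [Category.{v} 𝓜] extends
    Pool.Agent.Q28.HJ.JoinData.{v, u, w} 𝓜 where
  /-- the number of elements of `k` -/
  q : ℕ
  /-- the motive of a smooth hypersurface -/
  mot : Hyp → 𝓜
  /-- motives of abelian varieties, of curves, and of K3 surfaces -/
  Simple : 𝓜 → Prop
  /-- the `ℓ`-adic cohomology in degree `i` of a motive -/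
  H : 𝓜 → ℕ → Fr Ω
  /-- complete varieties over `k` (singularities are allowed) -/
  Var : Type w
  /-- the cohomology `H^i` of a complete variety -/
  coh : Var → ℕ → Fr Ω
  /-- `Y a` is the motive of the term `X_a` of a proper hypercovering `X_• → X` with smooth projective
  terms. Example: `X` is a variety with simple normal crossings and `X_a` is the disjoint union of the
  intersections of `a + 1` components. -/
  Res : Var → (ℕ → 𝓜) → Prop

namespace FData

variable {Ω : Type} [Field Ω] [CharZero Ω] {𝓜 : Type u} [Category.{v} 𝓜] [Preadditive 𝓜] [MonoidalCategory 𝓜]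
  (T : FData.{v, u, w} Ω 𝓜)

/-- Frobenius is semisimple on the cohomology of `M`. -/
def SS (M : 𝓜) : Prop := ∀ i, (T.H M i).Semisimple

/-- Known facts. `core`: hypersurfaces given by sums of forms (Shioda, Katsura). `unit` to `untwist`:
elementary properties of semisimple Frobenius modules and of the cohomology of motives. `small`:
semisimplicity for smooth hypersurfaces of dimension at most one (Weil), for quartic surfaces (Deligne),
for cubic hypersurfaces of dimension at most five and for quartic threefolds (the cohomology of odd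
degree comes from `H^1` of curves; cubic fourfolds: Levin, Charles, Pirutka); the characteristic is at
least five. `simple`: abelian varieties, curves (Weil), K3 surfaces (Deligne). `pure`: the Weil
conjectures. `res`: the weight filtration given by a proper hypercovering (Deligne): the graded piece of
weight `m` of `H^i(X)` is a subquotient of `H^m(X_(i - m))`. -/
structure Facts : Prop where
  core : T.CoreFacts
  mot : ∀ X : T.Hyp, T.Smooth X →
    Pool.Agent.Q28.HJ.GenBy T.L (fun N => N = T.prim X) (T.mot X)
  unit : T.SS (𝟙_ 𝓜)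
  lef : T.SS T.L
  tensor : ∀ M N, T.SS M → T.SS N → T.SS (M ⊗ N)
  split : ∀ (M A A' : 𝓜) (i₁ : M ⟶ A) (r₁ : A ⟶ M) (i₂ : M ⟶ A') (r₂ : A' ⟶ M),
    i₁ ≫ r₁ + i₂ ≫ r₂ = 𝟙 M → T.SS A → T.SS A' → T.SS M
  untwist : ∀ M, T.SS (M ⊗ T.L) → T.SS M
  small : T.SmallFacts T.SS
  simple : ∀ M, T.Simple M → T.SS M
  two_le : 2 ≤ T.q
  pure : ∀ M i, (T.H M i).Pure T.q i
  res : ∀ (X : T.Var) (Y : ℕ → 𝓜), T.Res X Y → ∀ i,
    Fr.Filtered (fun m => T.H (Y (i - m)) m) (i + 1) (T.coh X i)

/-- The motives obtained by tensor products, direct sums, direct summands and Tate twists from the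
motives of abelian varieties, curves, K3 surfaces, and of the smooth hypersurfaces given by sums of
small forms, of arbitrary dimension. -/
def Good (M : 𝓜) : Prop :=
  Pool.Agent.Q28.HJ.GenBy T.L (fun N => T.Simple N ∨ ∃ W, T.IsSmallSum W ∧ N = T.mot W) M

end FData

end Pool.Agent.Q173.FS
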