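import Pool.Agent.Q173.FS.Defs

/-!
# Frobenius is semisimple on the cohomology of complete varieties resolved by small sums
-/

set_option autoImplicit false

open CategoryTheory MonoidalCategory Polynomial

universe v u w

namespace Pool.Agent.Q173.FS

section

variable {Ω : Type} [Field Ω]

lemma aeval_comm {V V' : Type} [AddCommGroup V] [Module Ω V] [AddCommGroup V'] [Module Ω V']
    (f : V →ₗ[Ω] V') (g : Module.End Ω V) (h : Module.End Ω V') (hc : ∀ x, f (g x) = h (f x))
    (p : Polynomial Ω) : ∀ x, f (aeval g p x) = aeval h p (f x) := by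
  induction p using Polynomial.induction_on with
  | C a => intro x; simp
  | add p q hp hq => intro x; simp [hp, hq]
  | monomial n a ih =>
    intro x
    have e1 : aeval g (C a * X ^ (n + 1)) = (aeval g (C a * X ^ n)) * g := by
      rw [pow_succ, ← mul_assoc, map_mul, aeval_X]
    have e2 : aeval h (C a * X ^ (n + 1)) = (aeval h (C a * X ^ n)) * h := by
      rw [pow_succ, ← mul_assoc, map_mul, aeval_X]
    rw [e1, e2, Module.End.mul_apply, Module.End.mul_apply, ih, hc]

namespace Fr

lemma Filtered.prod {A : Fr Ω} {n : ℕ} {B : ℕ → Fr Ω} (h : Filtered B n A) :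
    aeval (A.F : Module.End Ω A.V) (∏ m ∈ Finset.range n,
      minpoly Ω ((B m).F : Module.End Ω (B m).V)) = 0 := by
  induction h with
  | zero h =>
    apply LinearMap.ext
    intro x
    exact h _
  | @succ m A A' G h e g ih =>
    obtain ⟨i, p, hi, hp, hip⟩ := e
    obtain ⟨S, j, q, hj, hq⟩ := g
    set P := minpoly Ω ((B m).F : Module.End Ω (B m).V) with hP
    have h1 : ∀ z : G.V, aeval (G.F : Module.End Ω G.V) P z = 0 := by
      intro z
      obtain ⟨s, rfl⟩ := hq z
      have h2 : aeval (S.F : Module.End Ω S.V) P s = 0 := by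
        apply hj
        have e1 := aeval_comm j.f (S.F : Module.End Ω S.V) ((B m).F : Module.End Ω (B m).V) j.comm P s
        rw [hP, minpoly.aeval] at e1
        change j.f _ = j.f 0
        rw [map_zero]
        exact e1
      have e2 := aeval_comm q.f (S.F : Module.End Ω S.V) (G.F : Module.End Ω G.V) q.comm P s
      rw [h2, map_zero] at e2
      exact e2.symm
    apply LinearMap.ext
    intro x
    rw [Finset.prod_range_succ, map_mul, Module.End.mul_apply]
    obtain ⟨y, hy⟩ := (hip (aeval (A'.F : Module.End Ω A'.V) P x)).1 (by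
      have e1 := aeval_comm p.f (A'.F : Module.End Ω A'.V) (G.F : Module.End Ω G.V) p.comm P x
      exact e1.trans (h1 _))
    rw [← hy]
    have e3 := aeval_comm i.f (A.F : Module.End Ω A.V) (A'.F : Module.End Ω A'.V) i.comm
      (∏ m ∈ Finset.range m, minpoly Ω ((B m).F : Module.End Ω (B m).V)) y
    rw [ih] at e3
    change aeval (A'.F : Module.End Ω A'.V) _ (i.f y) = _
    rw [← e3]
    simp

/-- **Filtrations with semisimple graded pieces of different weights.** -/
theorem Filtered.semisimple [CharZero Ω] [IsAlgClosed Ω] {A : Fr Ω} {n q : ℕ}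
    {B : ℕ → Fr Ω} (h : Filtered B n A) (hq : 2 ≤ q)
    (hs : ∀ m, (B m).Semisimple) (hp : ∀ m, (B m).Pure q m) : A.Semisimple := by
  set P : ℕ → Polynomial Ω := fun m => minpoly Ω ((B m).F : Module.End Ω (B m).V) with hP
  have h0 : aeval (A.F : Module.End Ω A.V) (∏ m ∈ Finset.range n, P m) = 0 := h.prod
  have hsq : Squarefree (∏ m ∈ Finset.range n, P m) := by
    apply Finset.squarefree_prod_of_pairwise_isCoprime
    · intro m _ m' _ hmn
      change IsRelPrime (P m) (P m')
      apply IsCoprime.isRelPrime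
      rw [Polynomial.isCoprime_iff_aeval_ne_zero_of_isAlgClosed Ω Ω]
      intro b
      by_contra hcon
      push Not at hcon
      obtain ⟨hb1, hb2⟩ := hcon
      have e1 : Module.End.HasEigenvalue ((B m).F : Module.End Ω (B m).V) b :=
        Module.End.hasEigenvalue_of_isRoot (by simpa [IsRoot, aeval_def] using hb1)
      have e2 : Module.End.HasEigenvalue ((B m').F : Module.End Ω (B m').V) b :=
        Module.End.hasEigenvalue_of_isRoot (by simpa [IsRoot, aeval_def] using hb2)
      obtain ⟨i1, w1⟩ := hp m b e1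
      obtain ⟨-, w2⟩ := hp m' b e2
      obtain ⟨z, hz⟩ := IsAlgClosed.exists_aeval_eq_zero ℂ (minpoly ℚ b)
        (minpoly.degree_pos i1).ne'
      have h1 := w1 z hz
      have h2 := w2 z hz
      rw [h1] at h2
      have hq' : (1 : ℝ) < q := by exact_mod_cast hq
      exact hmn (pow_right_injective₀ (by linarith) (ne_of_gt hq') h2)
    · intro m _
      exact (hs m).minpoly_squarefree
  exact Module.End.isSemisimple_of_squarefree_aeval_eq_zero hsq h0

end Fr

end

namespace FData

variable {Ω : Type} [Field Ω] [CharZero Ω] {𝓜 : Type u} [Category.{v} 𝓜] [Preadditive 𝓜]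
  [MonoidalCategory 𝓜] {T : FData.{v, u, w} Ω 𝓜}

lemma Facts.genBy (hT : T.Facts) {M : 𝓜} {Q : 𝓜 → Prop} (hQ : ∀ N, Q N → T.SS N)
    (h : Pool.Agent.Q28.HJ.GenBy T.L Q M) : T.SS M :=
  Pool.Agent.Q28.HJ.JoinData.genBy_property hT.unit hT.lef hT.tensor hT.split hT.untwist hQ h

/-- good motives -/
theorem Facts.good (hT : T.Facts) {M : 𝓜} (h : T.Good M) : T.SS M := by
  refine hT.genBy (fun N hN => ?_) h
  rcases hN with hN | ⟨W, hW, rfl⟩
  · exact hT.simple N hN
  · obtain ⟨hs, hg⟩ := Pool.Agent.Q28.HJ.JoinData.small_sum hT.core hT.small hW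
    refine hT.genBy (fun N hN => ?_) (hT.mot W hs)
    rw [hN]
    exact hT.genBy (fun _ h => h) hg

/-- **Main theorem.** -/
theorem Facts.main [IsAlgClosed Ω] (hT : T.Facts) {X : T.Var} {Y : ℕ → 𝓜} (hX : T.Res X Y)
    (hY : ∀ a, T.Good (Y a)) (i : ℕ) : (T.coh X i).Semisimple := by
  exact (hT.res X Y hX i).semisimple hT.two_le (fun m => hT.good (hY _) m) (fun m => hT.pure _ m)

end FData

end Pool.Agent.Q173.FS
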